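import Pool.Agent.R80.WF.Fin
import Pool.Agent.R80.WF.P3A
import Pool.Agent.R80.WF.P3B
import Pool.Agent.R80.WF.F0Fin
import Pool.Agent.R80.WF.X33
import Pool.Agent.R80.WF.X54
import Pool.Agent.R80.WF.X55
import Pool.Agent.U774.WT.SmallA
import Pool.Agent.U774.WT.SmallB
import Pool.Agent.U774.WT.SmallC
import Pool.Agent.U774.WT.LFam
import Pool.Agent.U774.WT.Exc
import Pool.Agent.U774.WT.TwoTwo

/-!
# Weil numbers with prescribed p-rank over the prime field: every prime and every admissible pair

For every prime `p`, every `g ≥ 2` and every `0 ≤ f ≤ g` with `(g, f) ≠ (2, 0)` there is an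
irreducible Weil `p`-polynomial of degree `2g` with exactly `f` unit roots such that no power of a
root generates a smaller field. By Honda-Tate theory it is the characteristic polynomial of Frobenius
of an absolutely simple abelian variety over `F_p` of dimension `g` and `p`-rank `f`. Over the
algebraic closure there is no simple abelian surface of `p`-rank 0, and for `g = 1` there are elliptic
curves over `F_p` with `f = 0` and `f = 1`; so the smallest field of definition is `F_p` for every
prime and every pair `(g, f)` for which a simple abelian variety exists.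

The cases of odd `p` with `g ≥ 3` and of `f ≤ 1` are the starting results of this problem. New here:
`p = 2` with `2 ≤ f ≤ g`, `g ≥ 3`, and `(g, f) = (2, 2)` for all `p`.

Method for `p = 2`: `P = ∑_{i<g} a_i (X^(2g-i) + 2^(g-i) X^i) + a_g X^g` is `(X^2 - 1)^g` modulo 3
and `P(1) = 6` modulo 9. Every monic integer factor `A` of `P` has `A(2) = A(0) A(1)`, so `A(1)` is
divisible by 3 and `P` is irreducible; `4 P(1)` is not of the form `m^2 + 3 n^2`, so `ℚ(x)` has no
square root of `-3`; ratios of conjugates which are roots of unity have order dividing `2 * 3^t`, and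
a norm argument gives `ℚ(x^n) = ℚ(x)` as `P` is not a polynomial in `X^d`. For `g ≥ 26` the
coefficients are those of `L(w) G(w)` with `G = (1 - w^6)^(g/3)` modulo 3 and coefficients `0, ±2`
(and constant term 1), and `L` a fixed polynomial without zeros in `|w| ≤ 1/√2`, corrected at `g - 1`
and `g`; for `g ≤ 25` explicit polynomials are checked by the kernel. The pairs
`(3,2), (4,2), (4,3), (4,4), (5,2), (6,2), (6,4)` use instead a simple root modulo 3 and
irreducibility modulo 5 of the real Weil polynomial. For `(2, 2)`: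
`P = X^4 + X^3 + X^2 + p X + p^2`.
-/

set_option autoImplicit false

namespace Pool.Agent.Results.MP_e32a7e_nt.AllPrimes

open Polynomial

theorem two_good {g f : ℕ} (hg : 3 ≤ g) (hf2 : 2 ≤ f) (hfg : f ≤ g) : R80.WF.Good 2 g f := by
  by_cases h26 : 26 ≤ g
  · exact U774.WT.good_large h26 hf2 hfg
  · have hg25 : g ≤ 25 := by omega
    have hnil : f ∉ ([] : List ℕ) := by simp
    interval_cases g
    · interval_cases f
      · exact U774.WT.e32
      · exact U774.WT.good3 3 (by norm_num) (by norm_num) (by simp)
    · interval_cases f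
      · exact U774.WT.e42
      · exact U774.WT.e43
      · exact U774.WT.e44
    · by_cases h : f = 2
      · subst h; exact U774.WT.e52
      · exact U774.WT.good5 f hf2 hfg (by simp [h])
    · by_cases h : f = 2
      · subst h; exact U774.WT.e62
      · by_cases h4 : f = 4
        · subst h4; exact U774.WT.e64
        · exact U774.WT.good6 f hf2 hfg (by simp [h, h4])
    · exact U774.WT.good7 f hf2 hfg hnil
    · exact U774.WT.good8 f hf2 hfg hnil
    · exact U774.WT.good9 f hf2 hfg hnil
    · exact U774.WT.good10 f hf2 hfg hnil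
    · exact U774.WT.good11 f hf2 hfg hnil
    · exact U774.WT.good12 f hf2 hfg hnil
    · exact U774.WT.good13 f hf2 hfg hnil
    · exact U774.WT.good14 f hf2 hfg hnil
    · exact U774.WT.good15 f hf2 hfg hnil
    · exact U774.WT.good16 f hf2 hfg hnil
    · exact U774.WT.good17 f hf2 hfg hnil
    · exact U774.WT.good18 f hf2 hfg hnil
    · exact U774.WT.good19 f hf2 hfg hnil
    · exact U774.WT.good20 f hf2 hfg hnil
    · exact U774.WT.good21 f hf2 hfg hnil
    · exact U774.WT.good22 f hf2 hfg hnil
    · exact U774.WT.good23 f hf2 hfg hnil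
    · exact U774.WT.good24 f hf2 hfg hnil
    · exact U774.WT.good25 f hf2 hfg hnil

/-- For every prime `p`, every `g ≥ 2` and every `f ≤ g`, with `f ≥ 1` if `g = 2`, there is a monic
integer polynomial `P` of degree `2g`, irreducible over the rationals, all of whose complex roots
have absolute value `√p`, whose coefficients of degree less than `2g - f` are divisible by `p` while
the coefficient of degree `2g - f` is not, and such that `ℚ(xⁿ) = ℚ(x)` for every complex root `x`
and every `n ≥ 1`. -/
theorem result (p g f : ℕ) (hp : p.Prime) (hg : 2 ≤ g) (hfg : f ≤ g) (hgf : g = 2 → 1 ≤ f) :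
    ∃ P : ℤ[X], P.Monic ∧ P.natDegree = 2 * g ∧ Irreducible (P.map (Int.castRingHom ℚ)) ∧
      (∀ x : ℂ, aeval x P = 0 → ‖x‖ = Real.sqrt p) ∧
      (∀ i < 2 * g - f, (p : ℤ) ∣ P.coeff i) ∧ ¬ (p : ℤ) ∣ P.coeff (2 * g - f) ∧
      (∀ x : ℂ, aeval x P = 0 → ∀ n : ℕ, 1 ≤ n →
        IntermediateField.adjoin ℚ {x ^ n} = IntermediateField.adjoin ℚ {x}) := by
  by_cases hf1 : f = 1
  · subst hf1
    exact Y676.WP.one_final hp hg
  by_cases hg2 : g = 2
  · have hf : f = 2 := by
      have := hgf hg2
      omega
    subst hg2
    subst hf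
    exact U774.WT.goodTwoTwo hp
  have hg3 : 3 ≤ g := by omega
  rcases Nat.eq_zero_or_pos f with h0 | h0
  · subst h0
    by_cases h1 : p = 3 ∧ g = 3
    · obtain ⟨rfl, rfl⟩ := h1
      exact R80.WF.g330
    by_cases h2 : p = 5 ∧ g = 4
    · obtain ⟨rfl, rfl⟩ := h2
      exact R80.WF.g540
    by_cases h3 : p = 5 ∧ g = 5
    · obtain ⟨rfl, rfl⟩ := h3
      exact R80.WF.g550
    exact R80.WF.good_f0 hp hg3 h1 h2 h3
  · by_cases h2 : p = 2
    · subst h2
      exact two_good hg3 (by omega) hfg
    · exact R80.WF.odd_main R80.WF.p3a R80.WF.p3b hp h2 hg3 h0 hfg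

end Pool.Agent.Results.MP_e32a7e_nt.AllPrimes
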